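import Pool.Agent.Lib.MP_2e2457_lc.Iff

/-!
# A characterisation of the optimal fan-planar graphs (MP_2e2457_lc)

A graph with at least three vertices is optimal fan-planar if and only if it decomposes into pentagons with
their diagonals and annular faces filled with two fans; see `Pool.Agent.FP.PentagonAnnulus`.
-/

set_option autoImplicit false

namespace Pool.Agent.Results.MP_2e2457_lc.Characterisation

open Pool.Agent.FP

theorem result {V : Type} [Finite V] {G : SimpleGraph V} (hn : 3 ≤ Nat.card V) :
    IsOptimal G ↔ Nonempty (PentagonAnnulus G) :=
  characterisation hn

end Pool.Agent.Results.MP_2e2457_lc.Characterisation
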